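import Pool.Agent.N516.SC.Defs

set_option autoImplicit false

namespace Pool.Agent.N377.SC

open SimpleGraph Finset
open Pool.Agent.N516.SC

theorem exists_cyc {V : Type} [Fintype V] (G : SimpleGraph V) (h : Nice G) (e : Sym2 V)
    (he : e ∈ G.edgeSet) : ∃ (u : V) (p : G.Walk u u), p.IsCycle ∧ e ∈ p.edges := by
  classical
  by_contra hcon
  push Not at hcon
  have hb : G.IsBridge e := (isBridge_iff_forall_cycle_notMem he).mpr fun u p hp => hcon u p hp
  obtain ⟨a, b⟩ := e
  change G.IsBridge s(a, b) at hb
  rw [isBridge_iff] at hb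
  have hab : G.Adj a b := he
  set G' := G.deleteEdges {s(a, b)} with hG'
  let f : V → Bool := fun v => decide (G'.Reachable a v)
  have hf : ∀ v, f v = true ↔ G'.Reachable a v := fun v => decide_eq_true_iff
  have hf' : ∀ v, f v = false ↔ ¬ G'.Reachable a v := fun v => decide_eq_false_iff_not
  have hadj : ∀ v w, G.Adj v w → s(v, w) ≠ s(a, b) → G'.Adj v w := by
    intro v w h1 h2
    rw [hG', deleteEdges_adj]
    exact ⟨h1, h2⟩
  obtain ⟨c, hc1, hc2⟩ := Set.exists_ne_of_one_lt_ncard (s := G.neighborSet a)
    (by rw [h.cubic a]; norm_num) b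
  obtain ⟨d, hd1, hd2⟩ := Set.exists_ne_of_one_lt_ncard (s := G.neighborSet b)
    (by rw [h.cubic b]; norm_num) a
  have hac : G.Adj a c := hc1
  have hbd : G.Adj b d := hd1
  have hc3 : G'.Adj a c := hadj a c hac (by
    intro h1
    rw [Sym2.eq_iff] at h1
    rcases h1 with h1 | h1
    · exact hc2 h1.2
    · exact hab.ne h1.1)
  have hd3 : G'.Adj b d := hadj b d hbd (by
    intro h1
    rw [Sym2.eq_iff] at h1
    rcases h1 with h1 | h1
    · exact hab.ne h1.1.symm
    · exact hd2 h1.2)
  have h4 := h.cut4 f ⟨a, c, hac.ne, (hf a).mpr (Reachable.refl _), (hf c).mpr hc3.reachable⟩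
    ⟨b, d, hbd.ne, (hf' b).mpr hb, (hf' d).mpr fun h1 => hb (h1.trans hd3.symm.reachable)⟩
  have h5 : cut G f ≤ 1 := by
    unfold cut
    calc (∑ v, ∑ w, if f v = true ∧ f w = false ∧ G.Adj v w then 1 else 0)
        ≤ ∑ v, ∑ w, if v = a ∧ w = b then 1 else 0 := by
          refine sum_le_sum fun v _ => sum_le_sum fun w _ => ?_
          by_cases h1 : f v = true ∧ f w = false ∧ G.Adj v w
          · rw [if_pos h1]
            obtain ⟨h2, h3, h6⟩ := h1
            have h7 : s(v, w) = s(a, b) := by
              by_contra h8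
              have h9 := hadj v w h6 h8
              exact (hf' w).mp h3 (((hf v).mp h2).trans h9.reachable)
            rw [Sym2.eq_iff] at h7
            rcases h7 with h7 | h7
            · rw [if_pos h7]
            · exfalso
              rw [h7.1] at h2
              exact hb ((hf b).mp h2)
          · rw [if_neg h1]
            exact Nat.zero_le _
      _ = 1 := by
          rw [sum_eq_single a]
          · rw [sum_eq_single b]
            · simp
            · intro w _ hw
              simp [hw]
            · simp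
          · intro v _ hv
            simp [hv]
          · simp
  omega

theorem isCyc_of_cycle {V : Type} {G : SimpleGraph V} {u : V} (p : G.Walk u u) (hp : p.IsCycle) :
    IsCyc p.toSubgraph := by
  refine ⟨p.toSubgraph_connected, fun v => ?_⟩
  by_cases hv : v ∈ p.support
  · rw [hp.ncard_neighborSet_toSubgraph_eq_two hv]
    exact even_two
  · have : p.toSubgraph.neighborSet v = ∅ := by
      ext w
      simp only [Subgraph.mem_neighborSet, Set.mem_empty_iff_false, iff_false]
      intro h
      exact hv (p.mem_verts_toSubgraph.mp h.fst_mem)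
    rw [this]
    simp

theorem t_FIN (V : Type) [Fintype V] (G : SimpleGraph V) (h : Nice G) :
    ∃ m, ∃ C : Fin m → G.Subgraph, IsCover C := by
  classical
  obtain ⟨m, ⟨e⟩⟩ := Finite.exists_equiv_fin G.edgeSet
  choose u p hp hep using fun x : G.edgeSet => exists_cyc G h x.1 x.2
  refine ⟨m, fun i => (p (e.symm i)).toSubgraph, fun i => isCyc_of_cycle _ (hp _), ?_⟩
  intro x hx
  refine ⟨e ⟨x, hx⟩, ?_⟩
  rw [Walk.mem_edges_toSubgraph, e.symm_apply_apply]
  exact hep ⟨x, hx⟩

end Pool.Agent.N377.SC
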